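import Pool.Agent.Lib.TGL_h59.Wrap
import Pool.Agent.Lib.TGL.Step
import Pool.Agent.Lib.ALLZO.RDFrame

/-!
# TANK G, track L: small lemmas for the local assembly
-/

set_option autoImplicit false

namespace Pool.Agent.TGL

open Pool.Agent.TAO (OVal VPos Ctx0)
open Pool.Agent.LU1 (FracIs fixO mem_fixO)
open Pool.Agent.ALLO (locv icl ICl decP)
open Pool.Agent.ALLZO (NRing CN mem_intN mem_ICl_fixO mem_ICl_base)

universe u w

variable {k Ω : Type u} [Field k] [Field Ω] [Algebra k Ω]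
  {𝕂 : Type w} [Field 𝕂] [LinearOrder 𝕂] [IsStrictOrderedRing 𝕂] {v : OVal 𝕂 Ω} {r D n : ℕ}

/-! ### Fields -/

theorem trdeg_of_alg59 {E E' : IntermediateField k Ω} (hle : E ≤ E')
    (halg : ∀ c ∈ E', IsAlgebraic E c) : Algebra.trdeg k E' = Algebra.trdeg k E := by
  let σ : E →ₐ[k] E' := IntermediateField.inclusion hle
  let _ : Algebra E E' := σ.toRingHom.toAlgebra
  have htow : IsScalarTower k E E' := IsScalarTower.of_algebraMap_eq fun x => (σ.commutes x).symm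
  have htow2 : IsScalarTower E E' Ω := IsScalarTower.of_algebraMap_eq fun x => rfl
  have halg2 : Algebra.IsAlgebraic E E' := by
    constructor
    intro x
    exact (isAlgebraic_algebraMap_iff (algebraMap E' Ω).injective).1 (halg x x.2)
  have h1 := trdeg_add_eq k E (A := E')
  rw [trdeg_eq_zero_iff.2 halg2, add_zero] at h1
  exact h1.symm

section Gal

variable {F : IntermediateField k Ω} {N : IntermediateField F Ω} {R : Subalgebra k Ω}

theorem fixO_top59 [FiniteDimensional F N] [IsGalois F N] :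
    fixO F N (⊤ : Subgroup (N ≃ₐ[F] N)) = F := by
  ext a
  rw [mem_fixO]
  constructor
  · rintro ⟨n, rfl, hn⟩
    obtain ⟨f, hf⟩ := (IsGalois.mem_bot_iff_fixed (F := F) (E := N) n).2
      fun σ => hn σ (Subgroup.mem_top σ)
    rw [← hf]
    exact f.2
  · intro ha
    exact ⟨algebraMap F N ⟨a, ha⟩, rfl, fun σ _ => σ.commutes _⟩

theorem le_fixO59 (H : Subgroup (N ≃ₐ[F] N)) : F ≤ fixO F N H := fun a ha =>
  (mem_fixO _ _ _ _).2 ⟨algebraMap F N ⟨a, ha⟩, rfl, fun σ _ => σ.commutes _⟩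

theorem alg_of_mem_N59 [FiniteDimensional F N] {a : Ω} (ha : a ∈ N) : IsAlgebraic F a := by
  have h1 : IsAlgebraic F (⟨a, ha⟩ : N) := Algebra.IsAlgebraic.isAlgebraic _
  exact h1.algHom N.val

theorem alg_of_mem_fixO59 [FiniteDimensional F N] {H : Subgroup (N ≃ₐ[F] N)} {a : Ω}
    (ha : a ∈ fixO F N H) : IsAlgebraic F a := by
  obtain ⟨n, rfl, -⟩ := (mem_fixO _ _ _ _).1 ha
  exact alg_of_mem_N59 n.2

/-- The localised integral closure in `N` meets `F` in `R`. -/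
theorem mem_of_ICl59 (h : Ctx0 k v n) [FiniteDimensional F N] [IsGalois F N] (hR : NRing v F R)
    {f : Ω} (hf : f ∈ ICl v R (N.restrictScalars k)) (hfF : f ∈ F) : f ∈ R := by
  have h1 : f ∈ ICl v R (fixO F N (⊤ : Subgroup (N ≃ₐ[F] N))) := by
    rw [mem_ICl_fixO h hR, fixO_top59]
    exact ⟨hf, hfF⟩
  rw [fixO_top59] at h1
  exact (mem_ICl_base hR).1 h1

end Gal

/-! ### Localised integral closures -/

theorem ICl_mono59 {R R' : Subalgebra k Ω} (h : R ≤ R') (E : IntermediateField k Ω) :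
    ICl v R E ≤ ICl v R' E := by
  refine ALLO.locv_mono ?_
  rintro a ⟨haE, P, hP, hPa⟩
  refine ⟨haE, P.map (Subalgebra.inclusion h).toRingHom, hP.map _, ?_⟩
  rw [Polynomial.eval₂_map]
  exact hPa

theorem le_ICl59 {R : Subalgebra k Ω} {E : IntermediateField k Ω} (h : ∀ f ∈ R, f ∈ E) :
    R ≤ ICl v R E := fun f hf =>
  ALLO.le_locv _ ⟨h f hf, isIntegral_algebraMap (R := R) (A := Ω) (x := ⟨f, hf⟩)⟩

theorem ICl_le59 {R : Subalgebra k Ω} {E : IntermediateField k Ω} {f : Ω} (hf : f ∈ ICl v R E) :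
    f ∈ E := by
  obtain ⟨a, ha, b, hb, -, -, rfl⟩ := hf
  exact E.div_mem ha.1 hb.1

/-- Fractions of the integral closure. -/
theorem fracIs_ICl59 {R : Subalgebra k Ω} {K E : IntermediateField k Ω} (hK : FracIs R K)
    (hKE : K ≤ E) (halg : ∀ a ∈ E, IsAlgebraic K a) : FracIs (ICl v R E) E := by
  refine ⟨fun f hf => ICl_le59 hf, fun g hg => ?_⟩
  have h2 : IsAlgebraic R g := LU1.isAlgebraic_of_frac hK (halg g hg)
  obtain ⟨y, hy0, hy⟩ := h2.exists_integral_multiple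
  have hyE : (y : Ω) ∈ E := hKE (hK.1 _ y.2)
  have hy0' : (y : Ω) ≠ 0 := fun h0 => hy0 (Subtype.ext h0)
  refine ⟨(y : Ω) * g, ALLO.le_locv _ ⟨E.mul_mem hyE hg, ?_⟩, (y : Ω),
    le_ICl59 (fun f hf => hKE (hK.1 f hf)) y.2, hy0', ?_⟩
  · rw [Algebra.smul_def] at hy
    exact hy
  · rw [mul_div_cancel_left₀ _ hy0']

/-! ### Monomials and units of `R[1 / χ]` -/

namespace LF

variable (B : LF k v r D)

theorem χ_zero59 : B.χ 0 = 1 := by
  have h0 := B.χ_add 0 B.Γ.zero_mem 0 B.Γ.zero_mem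
  rw [add_zero] at h0
  exact mul_left_cancel₀ (B.χ_ne 0 B.Γ.zero_mem) (by rw [← h0, mul_one])

theorem χ_neg59 {γ : 𝕂} (hγ : γ ∈ B.Γ) : B.χ (-γ) = (B.χ γ)⁻¹ := by
  have h1 := B.χ_add γ hγ (-γ) (B.Γ.neg_mem hγ)
  rw [add_neg_cancel, B.χ_zero59] at h1
  exact eq_inv_of_mul_eq_one_right h1.symm

theorem χ_mem_frac59 {E : IntermediateField k Ω} (hE : ∀ f ∈ B.R, f ∈ E) {γ : 𝕂}
    (hγ : γ ∈ B.Γ) : B.χ γ ∈ E := by
  rcases le_total 0 γ with h | h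
  · exact hE _ (B.χ_mem γ hγ h)
  · have h1 := hE _ (B.χ_mem (-γ) (B.Γ.neg_mem hγ) (by linarith))
    rw [B.χ_neg59 hγ] at h1
    have h2 := E.inv_mem h1
    rwa [inv_inv] at h2

theorem Un.inv59 {f : Ω} (hf : B.Un f) : B.Un f⁻¹ :=
  ⟨B.loc f hf.1 hf.2.1 hf.2.2, inv_ne_zero hf.2.1, by rw [v.map_inv hf.2.1, hf.2.2, neg_zero]⟩

theorem Un.mul59 {f g : Ω} (hf : B.Un f) (hg : B.Un g) : B.Un (f * g) :=
  ⟨B.R.mul_mem hf.1 hg.1, mul_ne_zero hf.2.1 hg.2.1, by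
    rw [v.map_mul hf.2.1 hg.2.1, hf.2.2, hg.2.2, add_zero]⟩

theorem InX.mul59 {A : Subalgebra k Ω} {f g : Ω} (hf : B.InX A f) (hg : B.InX A g) :
    B.InX A (f * g) := by
  obtain ⟨γ, hγ, h1⟩ := hf
  obtain ⟨δ, hδ, h2⟩ := hg
  refine ⟨γ + δ, B.Γ.add_mem hγ hδ, ?_⟩
  rw [B.χ_add γ hγ δ hδ, mul_mul_mul_comm]
  exact A.mul_mem h1 h2

theorem InX.of_mem59 {A : Subalgebra k Ω} {f : Ω} (hf : f ∈ A) : B.InX A f :=
  ⟨0, B.Γ.zero_mem, by rw [B.χ_zero59, one_mul]; exact hf⟩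

theorem InX.pow59 {A : Subalgebra k Ω} {f : Ω} (hf : B.InX A f) (m : ℕ) : B.InX A (f ^ m) := by
  induction m with
  | zero => rw [pow_zero]; exact InX.of_mem59 B A.one_mem
  | succ m ih => rw [pow_succ]; exact InX.mul59 B ih hf

variable {B} {C : LF k v r D}

theorem Ext.inX59 (h : B.Ext C) {f : Ω} (hf : B.InX B.R f) : C.InX C.R f := by
  obtain ⟨γ, hγ, h1⟩ := hf
  refine ⟨γ, h.Γ_le γ hγ, ?_⟩
  have h2 := (Un.inv59 C (h.χ_un γ hγ)).1
  rw [inv_div] at h2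
  have h3 : C.χ γ * f = (C.χ γ / B.χ γ) * (B.χ γ * f) := by
    have := B.χ_ne γ hγ
    field_simp
  rw [h3]
  exact C.R.mul_mem h2 (h.le h1)

theorem Ext.unX59 (h : B.Ext C) {f : Ω} (hf : B.UnX B.R f) : C.UnX C.R f :=
  ⟨hf.1, h.inX59 hf.2.1, h.inX59 hf.2.2⟩

theorem Ext.mono59 (h : B.Ext C) {f : Ω} (hf : B.Mono f) : C.Mono f := by
  obtain ⟨h0, h1, h2⟩ := hf
  refine ⟨h0, h.Γ_le _ h1, ?_⟩
  have h3 : f / C.χ (v f) = (f / B.χ (v f)) * (B.χ (v f) / C.χ (v f)) := by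
    have := B.χ_ne _ h1
    have := C.χ_ne _ (h.Γ_le _ h1)
    field_simp
  rw [h3]
  exact Un.mul59 C ⟨h.le h2.1, h2.2⟩ (h.χ_un _ h1)

theorem Mono.mul59 {f g : Ω} (hf : B.Mono f) (hg : B.Mono g) : B.Mono (f * g) := by
  rw [B.mono_iff59] at *
  exact hf.mul B.isFr.toPre0 hg

theorem Mono.inv59 {f : Ω} (hf : B.Mono f) : B.Mono f⁻¹ := by
  rw [B.mono_iff59] at *
  exact hf.inv B.isFr.toPre0

theorem Mono.mem59 {f : Ω} (hf : B.Mono f) (h0 : 0 ≤ v f) : f ∈ B.R := by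
  rw [B.mono_iff59] at hf
  exact hf.mem B.isFr.toPre0 h0

theorem Mono.one59 : B.Mono (1 : Ω) := by
  rw [B.mono_iff59]
  exact TGBh34.Mono.one B.isFr.toPre0

theorem Mono.of_unit59 {f g : Ω} (hf : B.Mono f) (hg : B.Un (g / f)) : B.Mono g := by
  have h1 : B.Mono (g / f) := by
    rw [B.mono_iff59]
    exact TGBh34.Mono.of_unit B.isFr.toPre0 hg.1 hg.2.1 hg.2.2
  have h2 := hf.mul59 h1
  rwa [mul_div_cancel₀ _ hf.1] at h2

theorem Mono.chi59 {γ : 𝕂} (hγ : γ ∈ B.Γ) : B.Mono (B.χ γ) := by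
  rw [B.mono_iff59]
  exact TGBh34.Mono.of_chi B.isFr.toPre0 hγ

/-- The group generated by monomials consists of monomials. -/
theorem Mono.of_Mo59 {S : Set Ω} (hS : ∀ s ∈ S, B.Mono s) {m : Ωˣ} (hm : m ∈ Mo S) :
    B.Mono (m : Ω) := by
  unfold Mo at hm
  induction hm using Subgroup.closure_induction with
  | mem x hx => exact hS _ hx
  | one => exact Mono.one59
  | mul x y _ _ h1 h2 => rw [Units.val_mul]; exact h1.mul59 h2
  | inv x _ h1 => rw [Units.val_inv_eq_inv_val]; exact h1.inv59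

end LF

theorem Mo_mem59 {S : Set Ω} {E : IntermediateField k Ω} (hS : ∀ s ∈ S, s ∈ E) {m : Ωˣ}
    (hm : m ∈ Mo S) : (m : Ω) ∈ E := by
  unfold Mo at hm
  induction hm using Subgroup.closure_induction with
  | mem x hx => exact hS _ hx
  | one => exact E.one_mem
  | mul x y _ _ h1 h2 => rw [Units.val_mul]; exact E.mul_mem h1 h2
  | inv x _ h1 => rw [Units.val_inv_eq_inv_val]; exact E.inv_mem h1

/-- A uniform exponent. -/
theorem exists_unif59 {Γ Γ' : AddSubgroup 𝕂} (hfg : Γ'.FG)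
    (h : ∀ γ ∈ Γ', ∃ e : ℕ, 0 < e ∧ (e : 𝕂) * γ ∈ Γ) :
    ∃ e : ℕ, 0 < e ∧ ∀ γ ∈ Γ', (e : 𝕂) * γ ∈ Γ := by
  classical
  obtain ⟨T, hT⟩ := hfg
  have hTm : ∀ t ∈ T, t ∈ Γ' := fun t ht => by
    rw [← hT]
    exact AddSubgroup.subset_closure ht
  choose! e he0 he using h
  refine ⟨∏ t ∈ T, e t, Finset.prod_pos fun t ht => he0 t (hTm t ht), fun γ hγ => ?_⟩
  rw [← hT] at hγ
  induction hγ using AddSubgroup.closure_induction with
  | mem t ht =>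
    rw [← Finset.mul_prod_erase T e ht, mul_comm, Nat.cast_mul, mul_comm (e t : 𝕂), ← mul_assoc]
    have h1 : t * ((∏ x ∈ T.erase t, e x : ℕ) : 𝕂) * (e t : 𝕂) =
        (∏ x ∈ T.erase t, e x) • ((e t : 𝕂) * t) := by
      rw [nsmul_eq_mul]; ring
    rw [h1]
    exact Γ.nsmul_mem (he t (hTm t ht)) _
  | zero => rw [mul_zero]; exact Γ.zero_mem
  | add x y _ _ h1 h2 => rw [mul_add]; exact Γ.add_mem h1 h2
  | neg x _ h1 => rw [mul_neg]; exact Γ.neg_mem h1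

/-! ### The limit ring -/

theorem Lim_le59 {P : Submodule k Ω} {S : Set Ω} {E : IntermediateField k Ω}
    (hP : ∀ f ∈ P, f ∈ E) (hS : ∀ s ∈ S, s ∈ E) : ∀ f ∈ Lim v P S, f ∈ E := by
  have h1 : ∀ f ∈ Algebra.adjoin k ({x | ∃ f g, OMin v P f ∧ g ∈ P ∧ x = g / f} ∪
      {x | ∃ m ∈ Mo S, v.Ge 0 (m : Ω) ∧ x = (m : Ω)}), f ∈ E := by
    have h2 : Algebra.adjoin k ({x | ∃ f g, OMin v P f ∧ g ∈ P ∧ x = g / f} ∪
        {x | ∃ m ∈ Mo S, v.Ge 0 (m : Ω) ∧ x = (m : Ω)}) ≤ E.toSubalgebra := by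
      refine Algebra.adjoin_le ?_
      rintro x (⟨f, g, hf, hg, rfl⟩ | ⟨m, hm, -, rfl⟩)
      · exact E.div_mem (hP g hg) (hP f hf.mem)
      · exact Mo_mem59 hS hm
    exact fun f hf => h2 hf
  rintro f ⟨a, ha, b, hb, -, -, rfl⟩
  exact E.div_mem (h1 a ha) (h1 b hb)

theorem Lim_nonneg59 (h : Ctx0 k v n) {P : Submodule k Ω} {S : Set Ω} :
    ∀ f ∈ Lim v P S, v.Ge 0 f := by
  refine ALLO.locv_nonneg fun f hf => ?_
  induction hf using Algebra.adjoin_induction with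
  | mem x hx =>
    rcases hx with ⟨f, g, hf, hg, rfl⟩ | ⟨m, -, hm, rfl⟩
    · exact hf.div g hg
    · exact hm
  | algebraMap c =>
    intro h0
    have : c ≠ 0 := by rintro rfl; simp at h0
    rw [h.triv c this]
  | add x z _ _ hx hz => exact hx.add hz
  | mul x z _ _ hx hz =>
    have := OVal.Ge.mul hx hz
    rwa [add_zero] at this

end Pool.Agent.TGL
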