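import Pool.Agent.Lib.TGL.NR
import Pool.Agent.Lib.TGB_h34.Tz

/-!
# TANK G, track L: limit frames `LF` and plain frames `IsFr`
-/

set_option autoImplicit false

namespace Pool.Agent.TGL

open Pool.Agent.TAO (OVal VPos Ctx0)
open Pool.Agent.TGBh34 (IsFr RkIs MM0 Pre0)

universe u w

variable {k Ω : Type u} [Field k] [Field Ω] [Algebra k Ω]
  {𝕂 : Type w} [Field 𝕂] [LinearOrder 𝕂] [IsStrictOrderedRing 𝕂] {v : OVal 𝕂 Ω} {r D : ℕ}

theorem LF.rkIs59 (B : LF k v r D) : RkIs B.Γ r := B.rk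

/-- A plain frame with its rank is a limit frame. -/
def LF.ofIsFr59 {Γ : AddSubgroup 𝕂} {χ : 𝕂 → Ω} {y : Fin D → Ω} {R : Subalgebra k Ω}
    (h : IsFr v Γ χ y R) (hr : RkIs Γ r) : LF k v r D where
  Γ := Γ
  fg := h.fg
  rk := hr
  χ := χ
  χ_ne := h.mon.ne
  χ_add := h.mon.add
  χ_val := h.mon.val
  y := y
  y_ne := h.y_ne
  y_pos := h.y_pos
  R := R
  nonneg := h.nonneg
  loc := h.loc
  χ_mem := h.χ_mem
  y_mem := h.y_mem
  fgen := h.fgen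
  gen := h.gen

theorem LF.mono_iff59 (B : LF k v r D) {f : Ω} : B.Mono f ↔ TGBh34.Mono v B.Γ B.χ B.R f := by
  constructor
  · rintro ⟨h0, h1, h2, -⟩
    exact ⟨h0, h1, h2⟩
  · rintro ⟨h0, h1, h2⟩
    refine ⟨h0, h1, h2, div_ne_zero h0 (B.χ_ne _ h1), ?_⟩
    rw [v.map_div h0 (B.χ_ne _ h1), B.χ_val _ h1, sub_self]

end Pool.Agent.TGL
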